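import Pool.Agent.helper50.BS.SpecC

set_option autoImplicit false
set_option linter.unusedVariables false
set_option linter.dupNamespace false

open Finset

open scoped Classical

noncomputable section

namespace Pool.Agent.BS

theorem CG5 (h2 : CG2_stmt) (h3 : CG3_stmt) (h4 : CG4_stmt) : CG5_stmt := by
  intro X R _ adj ω X0 β U hs h0 hm
  unfold Xi
  symm
  refine Finset.sum_bij (fun T _ => T.biUnion id) ?_ ?_ ?_ ?_
  · intro T hT
    rw [mem_filter, mem_powerset] at hT ⊢
    obtain ⟨hT1, hT2⟩ := hT
    refine ⟨?_, ?_⟩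
    · intro x hx
      rw [mem_biUnion] at hx
      obtain ⟨K, hK, hxK⟩ := hx
      have := hT1 hK
      rw [mem_filter, Conns, mem_filter, mem_powerset] at this
      exact this.1.1 hxK
    · intro x hx
      rw [mem_inter, mem_biUnion] at hx
      obtain ⟨⟨K, hK, hxK⟩, hxb⟩ := hx
      have := hT1 hK
      rw [mem_filter] at this
      exact this.2 (mem_inter.2 ⟨hxK, hxb⟩)
  · intro T1 hT1 T2 hT2 h
    rw [mem_filter, mem_powerset] at hT1 hT2
    refine h3 X adj T1 T2 hs ?_ ?_ hT1.2 hT2.2 h
    · intro K hK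
      have := hT1.1 hK
      rw [mem_filter, Conns, mem_filter] at this
      exact this.1.2
    · intro K hK
      have := hT2.1 hK
      rw [mem_filter, Conns, mem_filter] at this
      exact this.1.2
  · intro A hA
    rw [mem_filter, mem_powerset] at hA
    obtain ⟨T, hT1, hT2, hT3⟩ := h2 X adj A hs
    refine ⟨T, ?_, hT3⟩
    rw [mem_filter, mem_powerset]
    refine ⟨?_, hT2⟩
    intro K hK
    have hKA : K ⊆ A := by
      intro x hx
      rw [← hT3]
      exact mem_biUnion.2 ⟨K, hK, hx⟩
    rw [mem_filter, Conns, mem_filter, mem_powerset]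
    exact ⟨⟨hKA.trans hA.1, hT1 K hK⟩, (inter_subset_inter hKA subset_rfl).trans hA.2⟩
  · intro T hT
    rw [mem_filter] at hT
    exact (h4 X R adj ω T hs h0 hm hT.2).symm

end Pool.Agent.BS

end
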