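import Pool.Agent.helper50.BS.SpecC

set_option autoImplicit false
set_option linter.unusedVariables false
set_option linter.dupNamespace false

open Finset

open scoped Classical

noncomputable section

namespace Pool.Agent.BS

theorem CG8_sum {X R : Type} [CommRing R] (S : Finset X) :
    ∑ D ∈ S.powerset, (-1 : R) ^ D.card = if S = ∅ then 1 else 0 := by
  have h := Finset.sum_powerset_neg_one_pow_card (x := S)
  have h' := congrArg (Int.cast : ℤ → R) h
  push_cast at h'
  convert h' using 1

theorem CG8_coef {X R : Type} [CommRing R] (T P : Finset X) :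
    ∑ P' ∈ P.powerset with T ⊆ P', (-1 : R) ^ (P \ P').card = if T = P then 1 else 0 := by
  by_cases hT : T ⊆ P
  · have h1 : ∑ P' ∈ P.powerset with T ⊆ P', (-1 : R) ^ (P \ P').card =
        ∑ D ∈ (P \ T).powerset, (-1 : R) ^ D.card := by
      refine Finset.sum_bij' (fun P' _ => P \ P') (fun D _ => P \ D) ?_ ?_ ?_ ?_ ?_
      · intro P' hP'
        rw [mem_filter, mem_powerset] at hP'
        rw [mem_powerset]
        exact sdiff_subset_sdiff subset_rfl hP'.2
      · intro D hD
        rw [mem_powerset] at hD
        rw [mem_filter, mem_powerset]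
        refine ⟨sdiff_subset, ?_⟩
        intro x hx
        rw [mem_sdiff]
        exact ⟨hT hx, fun hxD => (mem_sdiff.1 (hD hxD)).2 hx⟩
      · intro P' hP'
        rw [mem_filter, mem_powerset] at hP'
        exact Finset.sdiff_sdiff_eq_self hP'.1
      · intro D hD
        rw [mem_powerset] at hD
        exact Finset.sdiff_sdiff_eq_self (hD.trans sdiff_subset)
      · intro P' _
        rfl
    rw [h1, CG8_sum]
    by_cases h : T = P
    · rw [if_pos h, if_pos (by rw [h, sdiff_self]; rfl)]
    · rw [if_neg h, if_neg]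
      intro h2
      exact h (subset_antisymm hT (sdiff_eq_empty_iff_subset.1 h2))
  · have hTP : ¬ T = P := fun h => hT (subset_of_eq h)
    rw [if_neg hTP]
    apply Finset.sum_eq_zero
    intro P' hP'
    rw [mem_filter, mem_powerset] at hP'
    exact absurd (hP'.2.trans hP'.1) hT

theorem CG8 : CG8_stmt := by
  intro X R _ w X0 D P hPD
  have h1 : ∀ P' ∈ P.powerset,
      (-1 : R) ^ (P \ P').card * (∑ A ∈ X0.powerset with A ∩ D ⊆ P', w A) =
        ∑ A ∈ X0.powerset, (if A ∩ D ⊆ P' then (-1 : R) ^ (P \ P').card * w A else 0) := by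
    intro P' _
    rw [Finset.mul_sum, Finset.sum_filter]
  rw [Finset.sum_congr rfl h1, Finset.sum_comm, Finset.sum_filter]
  refine Finset.sum_congr rfl ?_
  intro A _
  rw [← Finset.sum_filter, ← Finset.sum_mul, CG8_coef]
  by_cases h : A ∩ D = P
  · rw [if_pos h, if_pos h, one_mul]
  · rw [if_neg h, if_neg h, zero_mul]

end Pool.Agent.BS

end
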