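import Pool.Agent.helper50.BS.SpecC

set_option autoImplicit false
set_option linter.unusedVariables false
set_option linter.dupNamespace false

open Finset

open scoped Classical

noncomputable section

namespace Pool.Agent.BS

theorem CX5_even {G : Type} [CommGroup G] (g : G) (n : ℕ) (h : Even n) : g ^ ((-1 : ℤ) ^ n) = g := by
  rw [h.neg_one_pow, zpow_one]

theorem CX5_odd {G : Type} [CommGroup G] (g : G) (n : ℕ) (h : ¬ Even n) :
    g ^ ((-1 : ℤ) ^ n) = g⁻¹ := by
  rw [(Nat.not_even_iff_odd.1 h).neg_one_pow, zpow_neg_one]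

theorem CX5 (h3 : CX3_stmt) (h4 : CX4_stmt) : CX5_stmt := by
  intro P R _ ic ω f G hs hf hne hmob
  refine ⟨⟨hne, ?_⟩, ?_⟩
  · intro F1 F2 n1 n2 hd hu
    by_contra hcon
    push Not at hcon
    apply hmob
    rw [← hu]
    refine h3 P R ic ω f F1 F2 hs ?_ n1 n2 hd hcon
    intro F hF
    exact hf F (hu ▸ hF)
  · intro h0
    apply hmob
    have hd := h4 P R ic ω G hne
    rw [h0, zero_dvd_iff, sub_eq_zero] at hd
    have he : (∏ F ∈ G.powerset with Even (G \ F).card, f F) =
        ∏ F ∈ G.powerset with ¬ Even (G \ F).card, f F := by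
      apply Units.ext
      rw [Units.coe_prod, Units.coe_prod]
      have e1 : (∏ F ∈ G.powerset with Even (G \ F).card, (f F : R)) =
          ∏ F ∈ G.powerset with Even (G \ F).card, Xi ic ω F :=
        Finset.prod_congr rfl (fun F hF => hf F (mem_powerset.1 (mem_filter.1 hF).1))
      have e2 : (∏ F ∈ G.powerset with ¬ Even (G \ F).card, (f F : R)) =
          ∏ F ∈ G.powerset with ¬ Even (G \ F).card, Xi ic ω F :=
        Finset.prod_congr rfl (fun F hF => hf F (mem_powerset.1 (mem_filter.1 hF).1))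
      rw [e1, e2]
      exact hd
    unfold mob
    rw [← Finset.prod_filter_mul_prod_filter_not G.powerset (fun F => Even (G \ F).card)]
    have e3 : (∏ F ∈ G.powerset with Even (G \ F).card, f F ^ ((-1 : ℤ) ^ (G \ F).card)) =
        ∏ F ∈ G.powerset with Even (G \ F).card, f F :=
      Finset.prod_congr rfl (fun F hF => CX5_even _ _ (mem_filter.1 hF).2)
    have e4 : (∏ F ∈ G.powerset with ¬ Even (G \ F).card, f F ^ ((-1 : ℤ) ^ (G \ F).card)) =
        ∏ F ∈ G.powerset with ¬ Even (G \ F).card, (f F)⁻¹ :=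
      Finset.prod_congr rfl (fun F hF => CX5_odd _ _ (mem_filter.1 hF).2)
    rw [e3, e4, Finset.prod_inv_distrib, he, mul_inv_cancel]

end Pool.Agent.BS

end
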