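import Pool.Agent.helper50.BS.SpecU

set_option autoImplicit false
set_option linter.unusedVariables false
set_option linter.dupNamespace false

open scoped Classical

noncomputable section

namespace Pool.Agent.helper50.BT

open Pool.Agent.helper81.PL

theorem UC1 (hA1 : UA1_stmt) (hB3 : UB3_stmt) (hB4 : UB4_stmt) (hTB6 : BS.TB6_stmt) : UC1_stmt := by
  intro N M n k E W PP Tl h T hH C hC P hP
  by_cases hc : C.card ≤ 1
  · have hne : C.Nonempty := hH.tight.1.1.1 C hC
    have hc1 : C.card = 1 := le_antisymm hc (Finset.card_pos.2 hne)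
    obtain ⟨v, rfl⟩ := Finset.card_eq_one.1 hc1
    have hdl := (hA1 n E h).1 {v}
    have hP' : P ⊆ (ig n E h).dl {v} := by
      rw [hdl]
      exact hP
    rw [hTB6 (ig n E h) T.R T.x T.y v P hP', hdl]
    have hel : elemF M n k (3 * k) E Tl {v} P =
        addT M (monT M n k (3 * k) 0 P.card 0)
          (monT M n k (3 * k) 1 (helper81.BS.dd n E {v} - P.card) 0) := by
      unfold elemF
      have : leb (Finset.card {v}) 1 = true := by
        unfold leb
        rw [decide_eq_true_iff]
        exact hc
      rw [this]
      rfl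
    rw [hel]
    have h1 := (hB3 M n k (3 * k) T hH.two).1 0 P.card 0
    have h2 := (hB3 M n k (3 * k) T hH.two).1 1 (helper81.BS.dd n E {v} - P.card) 0
    have h3 := (hB4 M n k (3 * k) T _ _ _ _ hH.two h1 h2).1
    rw [pow_zero, pow_zero, one_mul, mul_one, pow_one, mul_one] at h3
    exact h3
  · have hc2 : 2 ≤ C.card := by omega
    obtain ⟨q, hq1, hq2⟩ := hH.tl C hC hc2
    obtain ⟨r, hr1, hr2⟩ := hq2 P hP
    have hel : elemF M n k (3 * k) E Tl C P = r.2 := by
      unfold elemF
      have : leb C.card 1 = false := by
        unfold leb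
        rw [decide_eq_false_iff_not]
        exact hc
      rw [this]
      simp only [cond_false]
      rw [hq1, Option.bind_some, hr1, Option.map_some, Option.getD_some]
    rw [hel]
    exact hr2

end Pool.Agent.helper50.BT

end
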